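import Pool.Agent.helper58.CRO.SpecH

/-!
# Row HKJ: the inequality of Jensen for Kazdan's inequality
-/

open scoped Manifold ContDiff Topology ENNReal
open MeasureTheory Set

noncomputable section

namespace Pool.Agent.CRO

lemma HKJ_cot {s t : ℝ} (hs : 0 < s) (hst : s < t) (ht : t < Real.pi) :
    ∫ r in s..t, (1 : ℝ) / Real.sin r ^ 2 = Real.sin (t - s) / (Real.sin s * Real.sin t) := by
  have hsin : ∀ r ∈ uIcc s t, 0 < Real.sin r := by
    intro r hr
    rw [uIcc_of_le hst.le] at hr
    exact Real.sin_pos_of_pos_of_lt_pi (by linarith [hr.1]) (by linarith [hr.2])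
  have hder : ∀ r ∈ uIcc s t, HasDerivAt (fun r => -(Real.cos r / Real.sin r))
      (1 / Real.sin r ^ 2) r := by
    intro r hr
    have h0 := (hsin r hr).ne'
    have h := ((Real.hasDerivAt_cos r).div (Real.hasDerivAt_sin r) h0).neg
    have e : -((-Real.sin r * Real.sin r - Real.cos r * Real.cos r) / Real.sin r ^ 2) =
        1 / Real.sin r ^ 2 := by
      have := Real.sin_sq_add_cos_sq r
      field_simp
      linarith
    rw [e] at h
    exact h
  have hint : IntervalIntegrable (fun r => (1 : ℝ) / Real.sin r ^ 2) volume s t := by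
    apply ContinuousOn.intervalIntegrable
    apply ContinuousOn.div continuousOn_const
    · exact (Real.continuous_sin.pow 2).continuousOn
    · intro r hr
      exact pow_ne_zero 2 (hsin r hr).ne'
  rw [intervalIntegral.integral_eq_sub_of_hasDerivAt hder hint, Real.sin_sub]
  have h1 := (hsin s left_mem_uIcc).ne'
  have h2 := (hsin t right_mem_uIcc).ne'
  field_simp
  ring

theorem HKJ : HKJ_stmt := by
  intro s t K v hs hst ht hv hvp
  have hsin : ∀ r ∈ Icc s t, 0 < Real.sin r := fun r hr =>
    Real.sin_pos_of_pos_of_lt_pi (by linarith [hr.1]) (by linarith [hr.2])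
  have h1 : 0 < Real.sin s := hsin s (left_mem_Icc.2 hst.le)
  have h2 : 0 < Real.sin t := hsin t (right_mem_Icc.2 hst.le)
  have h3 : 0 < Real.sin (t - s) :=
    Real.sin_pos_of_pos_of_lt_pi (by linarith) (by linarith)
  have hvs : 0 < v s := hvp s (left_mem_Icc.2 hst.le)
  have hvt : 0 < v t := hvp t (right_mem_Icc.2 hst.le)
  have hsc : ContinuousOn Real.sin (Icc s t) := Real.continuous_sin.continuousOn
  have hlv : ContinuousOn (fun r => Real.log (v r)) (Icc s t) :=
    hv.log fun r hr => (hvp r hr).ne'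
  have hls : ContinuousOn (fun r => Real.log (Real.sin r)) (Icc s t) :=
    hsc.log fun r hr => (hsin r hr).ne'
  have hinv : ContinuousOn (fun r => (Real.sin r ^ 2)⁻¹) (Icc s t) :=
    (hsc.pow 2).inv₀ fun r hr => pow_ne_zero 2 (hsin r hr).ne'
  have hvi : ContinuousOn (fun r => (v r ^ 2)⁻¹) (Icc s t) :=
    (hv.pow 2).inv₀ fun r hr => pow_ne_zero 2 (hvp r hr).ne'
  have hII : ∀ {f : ℝ → ℝ}, ContinuousOn f (Icc s t) → IntervalIntegrable f volume s t := by
    intro f hf
    apply ContinuousOn.intervalIntegrable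
    rw [uIcc_of_le hst.le]
    exact hf
  obtain ⟨J, hJ⟩ : ∃ J, J = ∫ r in s..t, (v r ^ 2)⁻¹ := ⟨_, rfl⟩
  have hJpos : 0 < J := by
    rw [hJ]
    apply intervalIntegral.intervalIntegral_pos_of_pos_on (hII hvi) _ hst
    intro r hr
    have := hvp r ⟨hr.1.le, hr.2.le⟩
    positivity
  obtain ⟨c, hc⟩ : ∃ c, c = Real.sin s * Real.sin t / Real.sin (t - s) := ⟨_, rfl⟩
  have hcpos : 0 < c := by rw [hc]; positivity
  have hcot : ∫ r in s..t, (Real.sin r ^ 2)⁻¹ = c⁻¹ := by
    have := HKJ_cot hs hst ht
    simp only [one_div] at this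
    rw [this, hc, inv_div]
  obtain ⟨F, hF⟩ : ∃ F : ℝ, F = ∫ r in s..t,
      (Real.log (v r) - Real.log (Real.sin r) + K) / Real.sin r ^ 2 := ⟨_, rfl⟩
  have hfc : ContinuousOn (fun r => Real.log (v r) - Real.log (Real.sin r) + K) (Icc s t) :=
    (hlv.sub hls).add continuousOn_const
  -- the main inequality
  have main : -(2 * c * F) + 2 * K ≤ Real.log (c * J) := by
    have hpt : ∀ r ∈ Icc s t,
        (-2 * c) * ((Real.log (v r) - Real.log (Real.sin r) + K) / Real.sin r ^ 2) +
          2 * K * c * (Real.sin r ^ 2)⁻¹ ≤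
        (Real.log (c * J) - 1) * c * (Real.sin r ^ 2)⁻¹ + J⁻¹ * (v r ^ 2)⁻¹ := by
      intro r hr
      have hsr := hsin r hr
      have hvr := hvp r hr
      have hx : 0 < Real.sin r ^ 2 / (v r ^ 2 * (c * J)) := by positivity
      have hlog := Real.log_le_sub_one_of_pos hx
      have e1 : Real.log (Real.sin r ^ 2 / (v r ^ 2 * (c * J))) =
          2 * Real.log (Real.sin r) - 2 * Real.log (v r) - Real.log (c * J) := by
        rw [Real.log_div (by positivity) (by positivity), Real.log_mul (by positivity)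
          (by positivity), Real.log_pow, Real.log_pow]
        push_cast
        ring
      rw [e1] at hlog
      have h4 : 0 < c / Real.sin r ^ 2 := by positivity
      have h5 := mul_le_mul_of_nonneg_right hlog h4.le
      have e2 : (Real.sin r ^ 2 / (v r ^ 2 * (c * J)) - 1) * (c / Real.sin r ^ 2) =
          J⁻¹ * (v r ^ 2)⁻¹ - c * (Real.sin r ^ 2)⁻¹ := by
        field_simp
      rw [e2] at h5
      have e3 : (-2 * c) * ((Real.log (v r) - Real.log (Real.sin r) + K) / Real.sin r ^ 2) +
          2 * K * c * (Real.sin r ^ 2)⁻¹ =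
          (2 * Real.log (Real.sin r) - 2 * Real.log (v r) - Real.log (c * J)) *
            (c / Real.sin r ^ 2) + Real.log (c * J) * c * (Real.sin r ^ 2)⁻¹ := by
        field_simp
        ring
      rw [e3]
      have e4 : (Real.log (c * J) - 1) * c * (Real.sin r ^ 2)⁻¹ + J⁻¹ * (v r ^ 2)⁻¹ =
          (J⁻¹ * (v r ^ 2)⁻¹ - c * (Real.sin r ^ 2)⁻¹) +
            Real.log (c * J) * c * (Real.sin r ^ 2)⁻¹ := by ring
      rw [e4]
      linarith
    have i1 : IntervalIntegrable (fun r => (-2 * c) *
        ((Real.log (v r) - Real.log (Real.sin r) + K) / Real.sin r ^ 2)) volume s t := by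
      apply hII
      apply ContinuousOn.mul continuousOn_const
      simp only [div_eq_mul_inv]
      exact hfc.mul hinv
    have i2 : IntervalIntegrable (fun r => 2 * K * c * (Real.sin r ^ 2)⁻¹) volume s t :=
      hII (continuousOn_const.mul hinv)
    have i3 : IntervalIntegrable (fun r => (Real.log (c * J) - 1) * c * (Real.sin r ^ 2)⁻¹)
      volume s t := hII (continuousOn_const.mul hinv)
    have i4 : IntervalIntegrable (fun r => J⁻¹ * (v r ^ 2)⁻¹) volume s t :=
      hII (continuousOn_const.mul hvi)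
    have hmono := intervalIntegral.integral_mono_on hst.le (i1.add i2) (i3.add i4) hpt
    rw [intervalIntegral.integral_add i1 i2, intervalIntegral.integral_add i3 i4,
      intervalIntegral.integral_const_mul, intervalIntegral.integral_const_mul,
      intervalIntegral.integral_const_mul, intervalIntegral.integral_const_mul, hcot, ← hJ,
      ← hF] at hmono
    have e5 : (Real.log (c * J) - 1) * c * c⁻¹ = Real.log (c * J) - 1 := by
      field_simp
    have e6 : 2 * K * c * c⁻¹ = 2 * K := by field_simp
    have e7 : J⁻¹ * J = 1 := inv_mul_cancel₀ hJpos.ne'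
    rw [e5, e6, e7] at hmono
    linarith
  rw [← hJ, ← hc, ← hF]
  have e8 : v s * v t * J / Real.sin (t - s) =
      v s * v t * (c * J) / (Real.sin s * Real.sin t) := by
    rw [hc]
    field_simp
  rw [e8, Real.log_div (by positivity) (by positivity), Real.log_mul (by positivity)
    (by positivity), Real.log_mul hvs.ne' hvt.ne', Real.log_mul h1.ne' h2.ne']
  linarith

end Pool.Agent.CRO
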