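import Pool.Agent.helper58.CRO.SpecJ

/-!
# Row JSP: inequality (2.2) for the test functions
-/

open scoped Manifold ContDiff Topology ENNReal
open MeasureTheory Set

noncomputable section

namespace Pool.Agent.CRO

variable {n : ℕ} {r0 : ℝ}

lemma JSP_A_pos {Ω α : ℝ} (hΩ : 0 < Ω) (h0 : 0 < α) (h1 : α < Real.pi / 2) :
    0 < Ω * Real.cos α :=
  mul_pos hΩ (Real.cos_pos_of_mem_Ioo ⟨by linarith [Real.pi_pos], h1⟩)

lemma JSP_W_ge {Ω α : ℝ} (_hA : 0 < Ω * Real.cos α) (s : ℝ) : Ω * Real.cos α ≤ Wf Ω α s := by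
  unfold Wf
  apply Real.le_sqrt_of_sq_le
  nlinarith [sq_nonneg (s * Real.sin α)]

lemma JSP_W_mono (Ω α : ℝ) {s s' : ℝ} (h0 : 0 ≤ s) (h : s ≤ s') : Wf Ω α s ≤ Wf Ω α s' := by
  unfold Wf
  apply Real.sqrt_le_sqrt
  have : s ^ 2 ≤ s' ^ 2 := pow_le_pow_left₀ h0 h 2
  nlinarith [sq_nonneg (Real.sin α)]

lemma JSP_W_zero {Ω α : ℝ} (hA : 0 < Ω * Real.cos α) : Wf Ω α 0 = Ω * Real.cos α := by
  unfold Wf
  rw [show Ω ^ 2 * Real.cos α ^ 2 + 0 ^ 2 * Real.sin α ^ 2 = (Ω * Real.cos α) ^ 2 by ring]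
  exact Real.sqrt_sq hA.le

lemma JSP_W_cont (Ω α : ℝ) : Continuous (Wf Ω α) := by
  unfold Wf
  fun_prop

/-- The test function without cutoff. -/
def JSP_g (n : ℕ) (Ω α t om s : ℝ) : ℝ :=
  t * Real.pi / Wf Ω α ((max s 0 / om) ^ ((1 : ℝ) / ((n : ℝ) - 1)))

/-- The test function. -/
def JSP_tau (n : ℕ) (Ω α t om s : ℝ) : ℝ :=
  if s < om * Ω ^ (n - 1) then JSP_g n Ω α t om s else 0

lemma JSP_exp {n : ℕ} (hn : 2 ≤ n) : (1 : ℝ) / ((n : ℝ) - 1) = (((n - 1 : ℕ) : ℝ))⁻¹ := by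
  rw [Nat.cast_sub (by omega : 1 ≤ n), one_div, Nat.cast_one]

lemma JSP_exp_pos {n : ℕ} (hn : 2 ≤ n) : (0 : ℝ) < (1 : ℝ) / ((n : ℝ) - 1) := by
  have : (2 : ℝ) ≤ n := by exact_mod_cast hn
  apply div_pos one_pos
  linarith

lemma JSP_g_at {n : ℕ} (hn : 2 ≤ n) {Ω α t om x : ℝ} (hom : 0 < om) (hx : 0 ≤ x) :
    JSP_g n Ω α t om (om * x ^ (n - 1)) = t * Real.pi / Wf Ω α x := by
  unfold JSP_g
  rw [max_eq_left (mul_nonneg hom.le (pow_nonneg hx _)), mul_div_cancel_left₀ _ hom.ne',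
    JSP_exp hn, Real.pow_rpow_inv_natCast hx (by omega)]

lemma JSP_g_cont {n : ℕ} (hn : 2 ≤ n) {Ω α t om : ℝ} (hA : 0 < Ω * Real.cos α) :
    Continuous (JSP_g n Ω α t om) := by
  unfold JSP_g
  apply Continuous.div continuous_const
  · apply (JSP_W_cont Ω α).comp
    apply Continuous.rpow_const
    · fun_prop
    · intro x
      right
      exact (JSP_exp_pos hn).le
  · intro x
    exact (lt_of_lt_of_le hA (JSP_W_ge hA _)).ne'

lemma JSP_g_nonneg {n : ℕ} {Ω α t om : ℝ} (hA : 0 < Ω * Real.cos α) (ht : 0 < t) (s : ℝ) :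
    0 ≤ JSP_g n Ω α t om s := by
  unfold JSP_g
  exact div_nonneg (mul_nonneg ht.le Real.pi_pos.le) (hA.le.trans (JSP_W_ge hA _))

lemma JSP_g_anti {n : ℕ} (hn : 2 ≤ n) {Ω α t om : ℝ} (hA : 0 < Ω * Real.cos α) (ht : 0 < t)
    (hom : 0 < om) : Antitone (JSP_g n Ω α t om) := by
  intro s s' h
  unfold JSP_g
  apply div_le_div_of_nonneg_left (mul_nonneg ht.le Real.pi_pos.le)
    (lt_of_lt_of_le hA (JSP_W_ge hA _))
  apply JSP_W_mono
  · exact Real.rpow_nonneg (div_nonneg (le_max_right _ _) hom.le) _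
  · apply Real.rpow_le_rpow (div_nonneg (le_max_right _ _) hom.le)
    · exact div_le_div_of_nonneg_right (max_le_max h le_rfl) hom.le
    · exact (JSP_exp_pos hn).le

lemma JSP_tau_anti {n : ℕ} (hn : 2 ≤ n) {Ω α t om : ℝ} (hA : 0 < Ω * Real.cos α) (ht : 0 < t)
    (hom : 0 < om) : Antitone (JSP_tau n Ω α t om) := by
  intro s s' h
  unfold JSP_tau
  split_ifs with h1 h2 h2
  · exact JSP_g_anti hn hA ht hom h
  · exact absurd (lt_of_le_of_lt h h1) h2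
  · exact JSP_g_nonneg hA ht s
  · exact le_rfl

lemma JSP_tau_nonneg {n : ℕ} {Ω α t om : ℝ} (hA : 0 < Ω * Real.cos α) (ht : 0 < t) (s : ℝ) :
    0 ≤ JSP_tau n Ω α t om s := by
  unfold JSP_tau
  split_ifs
  · exact JSP_g_nonneg hA ht s
  · exact le_rfl

lemma JSP_tau_zero {n : ℕ} (hn : 2 ≤ n) {Ω α t om : ℝ} (hΩ : 0 < Ω) (hA : 0 < Ω * Real.cos α)
    (hom : 0 < om) : JSP_tau n Ω α t om 0 = t * Real.pi / (Ω * Real.cos α) := by
  unfold JSP_tau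
  rw [if_pos (mul_pos hom (pow_pos hΩ _))]
  have := JSP_g_at hn (Ω := Ω) (α := α) (t := t) hom (le_refl (0 : ℝ))
  rw [zero_pow (by omega), mul_zero] at this
  rw [this, JSP_W_zero hA]

lemma JSP_tau_ind {n : ℕ} (Ω α t om : ℝ) :
    (fun s => JSP_tau n Ω α t om s ^ (n + 1)) =
      (Iio (om * Ω ^ (n - 1))).indicator (fun s => JSP_g n Ω α t om s ^ (n + 1)) := by
  funext s
  unfold JSP_tau
  by_cases h : s < om * Ω ^ (n - 1)
  · rw [indicator_of_mem (show s ∈ Iio (om * Ω ^ (n - 1)) from h), if_pos h]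
  · rw [indicator_of_notMem (show s ∉ Iio (om * Ω ^ (n - 1)) from h), if_neg h,
      zero_pow (by omega)]

lemma JSP_tau_int {n : ℕ} (hn : 2 ≤ n) {Ω α t om : ℝ} (hA : 0 < Ω * Real.cos α) :
    IntegrableOn (fun s => JSP_tau n Ω α t om s ^ (n + 1)) (Ioi 0) := by
  rw [JSP_tau_ind, IntegrableOn, integrable_indicator_iff measurableSet_Iio, IntegrableOn,
    Measure.restrict_restrict measurableSet_Iio]
  have hc : Continuous (fun s => JSP_g n Ω α t om s ^ (n + 1)) := (JSP_g_cont hn hA).pow _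
  have h1 : IntegrableOn (fun s => JSP_g n Ω α t om s ^ (n + 1)) (Icc 0 (om * Ω ^ (n - 1))) :=
    hc.continuousOn.integrableOn_Icc
  exact h1.mono_set (fun s hs => ⟨le_of_lt hs.2, le_of_lt hs.1⟩)

lemma JSP_tau_val (h2 : JF1_stmt) {n : ℕ} (hn : 2 ≤ n) {Ω α t om : ℝ} (hΩ : 0 < Ω)
    (h0 : 0 < α) (h1 : α < Real.pi / 2) (hom : 0 < om) :
    ∫ s in Ioi (0 : ℝ), JSP_tau n Ω α t om s ^ (n + 1) =
      (t * Real.pi) ^ (n + 1) * om / (Ω * Real.cos α) ^ 2 := by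
  have hA := JSP_A_pos hΩ h0 h1
  have hb : 0 ≤ om * Ω ^ (n - 1) := mul_nonneg hom.le (pow_nonneg hΩ.le _)
  have e1 : ∫ s in Ioi (0 : ℝ), JSP_tau n Ω α t om s ^ (n + 1) =
      ∫ s in (0 : ℝ)..(om * Ω ^ (n - 1)), JSP_g n Ω α t om s ^ (n + 1) := by
    rw [show (fun s => JSP_tau n Ω α t om s ^ (n + 1)) = _ from JSP_tau_ind Ω α t om,
      setIntegral_indicator measurableSet_Iio, intervalIntegral.integral_of_le hb,
      integral_Ioc_eq_integral_Ioo]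
    rfl
  have hder : ∀ x ∈ uIcc (0 : ℝ) Ω, HasDerivAt (fun x : ℝ => om * x ^ (n - 1))
      (om * (((n : ℝ) - 1) * x ^ (n - 2))) x := by
    intro x _
    have h := (hasDerivAt_pow (n - 1) x).const_mul om
    rw [Nat.cast_sub (by omega : 1 ≤ n), Nat.cast_one, show n - 1 - 1 = n - 2 by omega] at h
    exact h
  have hc : Continuous (fun s => JSP_g n Ω α t om s ^ (n + 1)) := (JSP_g_cont hn hA).pow _
  have hcd : ContinuousOn (fun x : ℝ => om * (((n : ℝ) - 1) * x ^ (n - 2))) (uIcc 0 Ω) := by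
    apply Continuous.continuousOn
    fun_prop
  have e2 := intervalIntegral.integral_comp_mul_deriv' (a := 0) (b := Ω)
    (f := fun x : ℝ => om * x ^ (n - 1)) (f' := fun x : ℝ => om * (((n : ℝ) - 1) * x ^ (n - 2)))
    (g := fun s => JSP_g n Ω α t om s ^ (n + 1)) hder hcd hc.continuousOn
  have e3 : om * (0 : ℝ) ^ (n - 1) = 0 := by rw [zero_pow (by omega), mul_zero]
  have e4 : ∫ s in (0 : ℝ)..(om * Ω ^ (n - 1)), JSP_g n Ω α t om s ^ (n + 1) =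
      ∫ x in (0 : ℝ)..Ω, (t * Real.pi) ^ (n + 1) * om *
        (((n : ℝ) - 1) * x ^ (n - 2) / Wf Ω α x ^ (n + 1)) := by
    have e5 : (∫ x in (0 : ℝ)..Ω, ((fun s => JSP_g n Ω α t om s ^ (n + 1)) ∘
        fun x : ℝ => om * x ^ (n - 1)) x * (om * (((n : ℝ) - 1) * x ^ (n - 2)))) =
        ∫ s in (0 : ℝ)..(om * Ω ^ (n - 1)), JSP_g n Ω α t om s ^ (n + 1) := by
      rw [e2]
      simp only [e3]
    rw [← e5]
    apply intervalIntegral.integral_congr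
    intro x hx
    rw [uIcc_of_le hΩ.le] at hx
    show JSP_g n Ω α t om (om * x ^ (n - 1)) ^ (n + 1) * (om * (((n : ℝ) - 1) * x ^ (n - 2))) = _
    rw [JSP_g_at hn hom hx.1, div_pow]
    ring
  rw [e1, e4, intervalIntegral.integral_const_mul, h2 n hn Ω α hΩ h0 h1]
  ring

lemma JSP_tau_phi (h3 : JF2_stmt) {n : ℕ} (hn : 2 ≤ n) {Ω α t om l : ℝ} (hΩ : 0 < Ω)
    (h0 : 0 < α) (h1 : α < Real.pi / 2) (hom : 0 < om) (hl : 0 < l) :
    ∫ φ in (0 : ℝ)..(Real.pi / 2),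
      JSP_tau n Ω α t om (om * l ^ (n - 1) * Real.sin φ ^ (n - 1)) ^ n * Real.sin φ ^ (n - 2) =
    (t * Real.pi) ^ n * (cW n * tr1 n α (Ω / l) / (Ω * Real.cos α * Wf Ω α l ^ (n - 1))) := by
  rw [← h3 n hn Ω α l hΩ h0 h1 hl, ← intervalIntegral.integral_const_mul]
  apply intervalIntegral.integral_congr
  intro φ hφ
  rw [uIcc_of_le (by positivity)] at hφ
  have hs : 0 ≤ Real.sin φ := Real.sin_nonneg_of_nonneg_of_le_pi hφ.1 (by linarith [hφ.2, Real.pi_pos])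
  have hls : 0 ≤ l * Real.sin φ := mul_nonneg hl.le hs
  show JSP_tau n Ω α t om (om * l ^ (n - 1) * Real.sin φ ^ (n - 1)) ^ n * Real.sin φ ^ (n - 2) =
    (t * Real.pi) ^ n * (if l * Real.sin φ < Ω then
        Real.sin φ ^ (n - 2) / Wf Ω α (l * Real.sin φ) ^ n else 0)
  rw [show om * l ^ (n - 1) * Real.sin φ ^ (n - 1) = om * (l * Real.sin φ) ^ (n - 1) by
    rw [mul_pow]; ring]
  unfold JSP_tau
  have hiff : om * (l * Real.sin φ) ^ (n - 1) < om * Ω ^ (n - 1) ↔ l * Real.sin φ < Ω := by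
    rw [mul_lt_mul_iff_right₀ hom]
    exact pow_lt_pow_iff_left₀ hls hΩ.le (by omega)
  by_cases hlt : l * Real.sin φ < Ω
  · rw [if_pos (hiff.2 hlt), if_pos hlt, JSP_g_at hn hom hls, div_pow]
    ring
  · rw [if_neg (fun h => hlt (hiff.1 h)), if_neg hlt, zero_pow (by omega)]
    ring

theorem JSP (h1 : JGG_stmt) (h2 : JF1_stmt) (h3 : JF2_stmt) (h4 : JNU_stmt) (h5 : JVL_stmt) :
    JSP_stmt := by
  intro n r0 𝒢 L R hn hE hL hR hRr hRL N κ Ω α t mx hN hκ hΩ hα hα' ht hmx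
  obtain ⟨hX0, hcW, hk, hk1, hXc, hkk, -⟩ := h4 n hn
  obtain ⟨⟨c, C, hc, -, hvl⟩, -⟩ := h5 n r0 𝒢 R hn hR hRr
  have hn0 : (0 : ℝ) < n := by
    have : (2 : ℝ) ≤ n := by exact_mod_cast hn
    linarith
  have hn1 : (0 : ℝ) < (n : ℝ) - 1 := by
    have : (2 : ℝ) ≤ n := by exact_mod_cast hn
    linarith
  have hN0 : (0 : ℝ) < N := by exact_mod_cast hN
  have hA := JSP_A_pos hΩ hα hα'
  have hh : 0 < R / N := div_pos hR hN0
  have hvv : ∀ j ∈ Finset.Icc 1 N, 0 < vv 𝒢 R N j := by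
    intro j hj
    refine lt_of_lt_of_le ?_ (hvl N j hN hj).1
    have hj0 : (0 : ℝ) < j := by exact_mod_cast (Finset.mem_Icc.1 hj).1
    positivity
  obtain ⟨om, homd⟩ : ∃ om, om = n * kap n := ⟨_, rfl⟩
  have hom : 0 < om := by rw [homd]; positivity
  have hlj : ∀ j ∈ Finset.Icc 1 N, 0 < lj 𝒢 R N j ∧
      vv 𝒢 R N j = R / N * om * lj 𝒢 R N j ^ (n - 1) := by
    intro j hj
    have hq : 0 < vv 𝒢 R N j / (R / N * (n * kap n)) := by
      have := hvv j hj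
      positivity
    refine ⟨Real.rpow_pos_of_pos hq _, ?_⟩
    unfold lj
    rw [JSP_exp hn, Real.rpow_inv_natCast_pow hq.le (by omega), homd]
    field_simp
  have key := h1 n r0 𝒢 L R hn hE hL hR hRr hRL N
    (fun j => κ j ^ 2 / Wf Ω α (lj 𝒢 R N j) ^ 2) (JSP_tau n Ω α t om)
    (mx / (Ω * Real.cos α) ^ 2) hN
    (fun j => by
      have h1 := (hκ j).1
      have h2 := lt_of_lt_of_le hA (JSP_W_ge hA (lj 𝒢 R N j))
      positivity)
    (JSP_tau_anti hn hA ht hom) (JSP_tau_nonneg hA ht) (JSP_tau_int hn hA)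
    (fun j hj => by
      have h1 := (hκ j).1
      have h2 := (hκ j).2
      have h3 := JSP_W_ge hA (lj 𝒢 R N j)
      have h4 := hvv j hj
      have h5 := hmx j hj
      show κ j ^ 2 / Wf Ω α (lj 𝒢 R N j) ^ 2 * vv 𝒢 R N j ≤ mx / (Ω * Real.cos α) ^ 2
      have h6 : κ j ^ 2 ≤ 1 := by nlinarith
      have h7 : (Ω * Real.cos α) ^ 2 ≤ Wf Ω α (lj 𝒢 R N j) ^ 2 := pow_le_pow_left₀ hA.le h3 2
      calc κ j ^ 2 / Wf Ω α (lj 𝒢 R N j) ^ 2 * vv 𝒢 R N j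
          ≤ 1 / (Ω * Real.cos α) ^ 2 * mx := by
            apply mul_le_mul _ h5 h4.le (by positivity)
            apply div_le_div₀ zero_le_one h6 (by positivity) h7
        _ = mx / (Ω * Real.cos α) ^ 2 := by ring)
  rw [JSP_tau_val h2 hn hΩ hα hα' hom, JSP_tau_zero hn hΩ hA hom] at key
  obtain ⟨S1, hS1⟩ : ∃ S1, S1 = ∑ j ∈ Finset.Icc 1 N, R / N *
      (lj 𝒢 R N j ^ (n - 1) * κ j ^ 2 / Wf Ω α (lj 𝒢 R N j) ^ (n + 1) *
        tr1 n α (Ω / lj 𝒢 R N j)) := ⟨_, rfl⟩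
  obtain ⟨S2, hS2⟩ : ∃ S2, S2 = ∑ j ∈ Finset.Icc 1 N, R / N *
      (lj 𝒢 R N j ^ (n - 1) * κ j ^ (n + 1) / Wf Ω α (lj 𝒢 R N j) ^ (n + 1)) := ⟨_, rfl⟩
  have k1 : (∑ j ∈ Finset.Icc 1 N, κ j ^ 2 / Wf Ω α (lj 𝒢 R N j) ^ 2 * vv 𝒢 R N j *
      (2 * kap (n - 1) * (((n : ℝ) - 1) / n) * ∫ φ in (0 : ℝ)..(Real.pi / 2),
        JSP_tau n Ω α t om (vv 𝒢 R N j / (R / N) * Real.sin φ ^ (n - 1)) ^ n *
          Real.sin φ ^ (n - 2))) =
      om * kap n * (t * Real.pi) ^ n / (Ω * Real.cos α) * S1 := by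
    rw [hS1, Finset.mul_sum]
    apply Finset.sum_congr rfl
    intro j hj
    obtain ⟨hl, hv⟩ := hlj j hj
    have hW := lt_of_lt_of_le hA (JSP_W_ge hA (lj 𝒢 R N j))
    rw [show vv 𝒢 R N j / (R / N) = om * lj 𝒢 R N j ^ (n - 1) by
      rw [hv]; field_simp, JSP_tau_phi h3 hn hΩ hα hα' hom hl, hv, hkk]
    have hWn : Wf Ω α (lj 𝒢 R N j) ^ (n + 1) =
        Wf Ω α (lj 𝒢 R N j) ^ 2 * Wf Ω α (lj 𝒢 R N j) ^ (n - 1) := by
      rw [← pow_add]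
      congr 1
      omega
    rw [hWn]
    field_simp
  have k2 : (∑ j ∈ Finset.Icc 1 N, Real.sqrt (κ j ^ 2 / Wf Ω α (lj 𝒢 R N j) ^ 2) ^ (n + 1) *
      vv 𝒢 R N j) = om * S2 := by
    rw [hS2, Finset.mul_sum]
    apply Finset.sum_congr rfl
    intro j hj
    obtain ⟨hl, hv⟩ := hlj j hj
    have hW := lt_of_lt_of_le hA (JSP_W_ge hA (lj 𝒢 R N j))
    have hs : Real.sqrt (κ j ^ 2 / Wf Ω α (lj 𝒢 R N j) ^ 2) = κ j / Wf Ω α (lj 𝒢 R N j) := by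
      rw [← div_pow]
      exact Real.sqrt_sq (div_nonneg (hκ j).1.le hW.le)
    rw [hs, hv, div_pow]
    ring
  have key' : n * cK n * ((n + 1) * (om * kap n * (t * Real.pi) ^ n / (Ω * Real.cos α) * S1 -
      kap n * (mx / (Ω * Real.cos α) ^ 2) * (t * Real.pi / (Ω * Real.cos α)) ^ n) -
      kap (n - 1) * ((t * Real.pi) ^ (n + 1) * om / (Ω * Real.cos α) ^ 2)) ≤
      (om * S2) ^ 2 := by
    rw [← k1, ← k2]
    exact key
  show (n + 1) * X0 n * t ^ n * (Ω * Real.cos α * ∑ j ∈ Finset.Icc 1 N, R / N *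
      (lj 𝒢 R N j ^ (n - 1) * κ j ^ 2 / Wf Ω α (lj 𝒢 R N j) ^ (n + 1) *
        tr1 n α (Ω / lj 𝒢 R N j))) ≤
    (Ω * Real.cos α * ∑ j ∈ Finset.Icc 1 N, R / N *
      (lj 𝒢 R N j ^ (n - 1) * κ j ^ (n + 1) / Wf Ω α (lj 𝒢 R N j) ^ (n + 1))) ^ 2 +
      n * X0 n ^ 2 * t ^ (n + 1) +
      (n + 1) * X0 n * t ^ n * (mx / (n * kap n * (Ω * Real.cos α) ^ n))
  rw [← hS1, ← hS2]
  have hkp : kap (n - 1) * Real.pi = om * X0 n := by
    rw [homd, hkk]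
    have : Real.pi = 2 * ((n : ℝ) - 1) * (X0 n * cW n) := by
      rw [hXc]
      field_simp
    rw [this]
    field_simp
  obtain ⟨A, hAd⟩ : ∃ A, A = Ω * Real.cos α := ⟨_, rfl⟩
  rw [← hAd] at key' hA ⊢
  have hpi := Real.pi_pos
  have hfac : 0 < A ^ 2 / om ^ 2 := by positivity
  have k3 := mul_le_mul_of_nonneg_left key' hfac.le
  have e1 : A ^ 2 / om ^ 2 * (om * S2) ^ 2 = (A * S2) ^ 2 := by
    field_simp
  have e2 : A ^ 2 / om ^ 2 * (n * cK n * ((n + 1) * (om * kap n * (t * Real.pi) ^ n / A * S1 -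
      kap n * (mx / A ^ 2) * (t * Real.pi / A) ^ n) -
      kap (n - 1) * ((t * Real.pi) ^ (n + 1) * om / A ^ 2))) =
      (n + 1) * X0 n * t ^ n * (A * S1) - (n + 1) * X0 n * t ^ n * (mx / (n * kap n * A ^ n)) -
        n * X0 n ^ 2 * t ^ (n + 1) := by
    unfold cK
    have hX : X0 n = kap (n - 1) * Real.pi / om := by
      rw [hkp]
      field_simp
    have hk' : kap n = om / n := by
      rw [homd]
      field_simp
    have hlast : n * X0 n ^ 2 * t ^ (n + 1) =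
        n * X0 n * (kap (n - 1) * Real.pi / om) * t ^ (n + 1) := by
      rw [← hX]
      ring
    rw [hlast, hk']
    rw [mul_pow, mul_pow, div_pow, mul_pow]
    field_simp
    ring
  rw [e1, e2] at k3
  linarith

end Pool.Agent.CRO
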