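import Pool.Agent.helper58.CRO.SpecB

/-!
# MP_5bf3c3_gt, row cro:LEV: the level inequality
-/

set_option autoImplicit false

open scoped Manifold ContDiff Topology ENNReal
open MeasureTheory Set

noncomputable section

namespace Pool.Agent.CRO

/-- the function `E_z(s, t)` -/
def LEV_E {n : ℕ} (H : PS n → ℝ) (Φ : ℝ → PS n → PS n) (z : PS n) (s t : ℝ) : ℝ :=
  |(BB Φ (t - s) (Φ s z)).det| / Real.sqrt ((Hpp H (Φ s z)).det * (Hpp H (Φ t z)).det)

lemma LEV_E_nonneg {n : ℕ} (H : PS n → ℝ) (Φ : ℝ → PS n → PS n) (z : PS n) (s t : ℝ) :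
    0 ≤ LEV_E H Φ z s t := div_nonneg (abs_nonneg _) (Real.sqrt_nonneg _)

lemma LEV_Hpp_meas {n : ℕ} (H : PS n → ℝ) : Measurable (fun z : PS n => (Hpp H z).det) := by
  have h1 : Measurable (fun z : PS n => fderiv ℝ (hvf H) z) := measurable_fderiv ℝ (hvf H)
  have h2 : Continuous (fun D : PS n →L[ℝ] PS n => ((ContinuousLinearMap.fst ℝ (En n) (En n)).comp
      (D.comp (ContinuousLinearMap.inr ℝ (En n) (En n)))).det) := by
    refine ContinuousLinearMap.continuous_det.comp ?_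
    fun_prop
  exact h2.measurable.comp h1

lemma LEV_E_meas {n : ℕ} {H : PS n → ℝ} {Φ : ℝ → PS n → PS n} (hF : IsHFlow H Φ) {σ : ℝ → ℝ}
    (hσ : Continuous σ) : Measurable (fun q : PS n × ℝ => LEV_E H Φ q.1 q.2 (σ q.2)) := by
  have hc1 : Continuous (fun q : PS n × ℝ => Φ q.2 q.1) :=
    hF.cont.comp (continuous_snd.prodMk continuous_fst)
  have hc2 : Continuous (fun q : PS n × ℝ => Φ (σ q.2) q.1) :=
    hF.cont.comp ((hσ.comp continuous_snd).prodMk continuous_fst)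
  have hc3 : Continuous (fun q : PS n × ℝ => fderiv ℝ (Φ (σ q.2 - q.2)) (Φ q.2 q.1)) :=
    hF.dcont.comp (((hσ.comp continuous_snd).sub continuous_snd).prodMk hc1)
  have h2 : Continuous (fun D : PS n →L[ℝ] PS n => ((ContinuousLinearMap.fst ℝ (En n) (En n)).comp
      (D.comp (ContinuousLinearMap.inr ℝ (En n) (En n)))).det) := by
    refine ContinuousLinearMap.continuous_det.comp ?_
    fun_prop
  have hc4 : Continuous (fun q : PS n × ℝ => (BB Φ (σ q.2 - q.2) (Φ q.2 q.1)).det) := h2.comp hc3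
  have hm1 : Measurable (fun q : PS n × ℝ => (Hpp H (Φ q.2 q.1)).det) :=
    (LEV_Hpp_meas H).comp hc1.measurable
  have hm2 : Measurable (fun q : PS n × ℝ => (Hpp H (Φ (σ q.2) q.1)).det) :=
    (LEV_Hpp_meas H).comp hc2.measurable
  unfold LEV_E
  exact (hc4.abs.measurable).div ((hm1.mul hm2).sqrt)

lemma LEV_VV_nonneg {n : ℕ} {r0 : ℝ} (𝒢 : NChart n r0) (ρ : ℝ) : 0 ≤ VV 𝒢 ρ := by
  unfold VV
  exact MeasureTheory.integral_nonneg fun x => inv_nonneg.mpr (Real.sqrt_nonneg _)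

/-- facts along the orbits of the points of `A` -/
lemma LEV_orb (h6 : NRG_stmt) (h7 : HVA_stmt) {n : ℕ} {r0 r1 : ℝ} {𝒢 : NChart n r0} {H : PS n → ℝ}
    {Φ : ℝ → PS n → PS n} (hF : IsGFlow 𝒢 r1 H Φ) {z : PS n} {a k : ℝ} (ha : 0 < a) (hk : 0 < k)
    (hz : nrm2 𝒢 z < 1) (hr : ∀ u ∈ Icc (-a - k) a, ‖(Φ u z).1‖ < r1) :
    ∀ u ∈ Icc (-a - k) a, nrm2 𝒢 (Φ u z) < 1 ∧ Hpp H (Φ u z) = 𝒢.G (Φ u z).1 := by
  intro u hu
  have h1 : nrm2 𝒢 (Φ u z) = nrm2 𝒢 z := by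
    refine h6 n r0 r1 𝒢 H Φ hF z u hz fun s hs => hr s ?_
    rw [mem_uIcc] at hs
    rw [mem_Icc] at hu ⊢
    rcases hs with hs | hs
    · constructor <;> linarith [hs.1, hs.2, hu.1, hu.2]
    · constructor <;> linarith [hs.1, hs.2, hu.1, hu.2]
  refine ⟨by rw [h1]; exact hz, ?_⟩
  exact (h7 n r0 r1 𝒢 H Φ hF (Φ u z) (hr u hu) (by rw [h1]; linarith)).2.2

/-- the inequality for a single point of `A` -/
lemma LEV_point (h1 : KZP_stmt) (h2 : KZW_stmt) (h4 : NDG_stmt) (h6 : NRG_stmt) (h7 : HVA_stmt)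
    {n : ℕ} (hn : 1 ≤ n) {r0 r1 L : ℝ} {𝒢 : NChart n r0} {H : PS n → ℝ} {Φ : ℝ → PS n → PS n}
    (hF : IsGFlow 𝒢 r1 H Φ) (hE : HasExp 𝒢 L) {z : PS n} {a k T : ℝ} (ha : 0 < a) (hk : 0 < k)
    (hL : 2 * a + k < L) (hz : nrm2 𝒢 z < 1) (hr : ∀ u ∈ Icc (-a - k) a, ‖(Φ u z).1‖ < r1)
    {w σ : ℝ → ℝ} (hw : Continuous w) (hw0 : ∀ u, 0 < w u) (hσ : Continuous σ)
    (hσ1 : ∀ u ∈ Icc (-a) 0, σ u ∈ Icc 0 a ∧ u < σ u ∧
      ∫ r in (-a)..u, w r = ∫ r in (0 : ℝ)..(σ u), w r)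
    (hT : T = ∫ r in (-a)..a, w r) (hT2 : ∫ r in (-a)..0, w r = T / 2) (hTp : 0 < T) :
    ENNReal.ofReal (T / 2 * (T / Real.pi) ^ n) ≤ ∫⁻ u in Ioc (-a) 0,
      ENNReal.ofReal (w u * (LEV_E H Φ z u (σ u) * Real.sqrt (w u * w (σ u)) ^ n)) := by
  have horb := LEV_orb h6 h7 hF ha hk hz hr
  have hsub : ∀ u ∈ Icc (-a) a, u ∈ Icc (-a - k) a := fun u hu => ⟨by linarith [hu.1], hu.2⟩
  obtain ⟨ψ, hψc, hψp, hψ⟩ := h1 n hn H Φ hF.smoothH hF.toIsHFlow z a k ha hk (by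
    intro u hu
    rw [(horb u (hsub u hu)).2]
    exact 𝒢.pos _ ((hr u (hsub u hu)).trans hF.r1lt)) (by
    intro u hu
    refine h4 n r0 r1 L 𝒢 H Φ hF hE (Φ (-a - k) z) (u + a + k) (by linarith [hu.1])
      (by linarith [hu.2]) (horb (-a - k) ⟨le_rfl, by linarith⟩).1 ?_
    intro s hs
    rw [← hF.add]
    refine hr _ ⟨by linarith [hs.1], ?_⟩
    linarith [hs.2, hu.2])
  have hkz := h2 n a T w σ ψ ha hw hw0 hσ hσ1 hT hT2 hψc hψp
  have hpos : 0 < T / 2 * (T / Real.pi) ^ n := by positivity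
  set f : ℝ → ℝ := fun u => w u * (ψ u * ψ (σ u) * (∫ r in u..(σ u), (ψ r ^ 2)⁻¹) *
    Real.sqrt (w u * w (σ u))) ^ n with hf
  have hint : IntervalIntegrable f volume (-a) 0 := by
    apply intervalIntegral.intervalIntegrable_of_integral_ne_zero
    exact (hpos.trans_le hkz).ne'
  have hle : -a ≤ (0 : ℝ) := by linarith
  rw [intervalIntegral.integral_of_le hle] at hkz
  have hint' : IntegrableOn f (Ioc (-a) 0) := (intervalIntegrable_iff_integrableOn_Ioc_of_le hle).mp hint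
  have hpt : ∀ u ∈ Ioc (-a) (0 : ℝ), 0 ≤ f u ∧
      f u ≤ w u * (LEV_E H Φ z u (σ u) * Real.sqrt (w u * w (σ u)) ^ n) := by
    intro u hu
    have hu' : u ∈ Icc (-a) (0 : ℝ) := Ioc_subset_Icc_self hu
    obtain ⟨hs1, hs2, -⟩ := hσ1 u hu'
    have hua : u ∈ Icc (-a) a := ⟨hu'.1, by linarith [hu'.2]⟩
    have hsa : σ u ∈ Icc (-a) a := ⟨by linarith [hs1.1], hs1.2⟩
    have hI : 0 ≤ ∫ r in u..(σ u), (ψ r ^ 2)⁻¹ :=
      intervalIntegral.integral_nonneg hs2.le fun r _ => inv_nonneg.mpr (sq_nonneg _)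
    have hx : 0 ≤ ψ u * ψ (σ u) * (∫ r in u..(σ u), (ψ r ^ 2)⁻¹) :=
      mul_nonneg (mul_nonneg (hψp u hua).le (hψp _ hsa).le) hI
    have hxE := hψ u (σ u) hua.1 hs2 hsa.2
    have hxE' : ψ u * ψ (σ u) * (∫ r in u..(σ u), (ψ r ^ 2)⁻¹) ≤
        (LEV_E H Φ z u (σ u)) ^ ((1 : ℝ) / n) := hxE
    have hpow : (ψ u * ψ (σ u) * (∫ r in u..(σ u), (ψ r ^ 2)⁻¹)) ^ n ≤ LEV_E H Φ z u (σ u) := by
      refine (pow_le_pow_left₀ hx hxE' n).trans (le_of_eq ?_)
      rw [one_div]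
      exact Real.rpow_inv_natCast_pow (LEV_E_nonneg H Φ z u (σ u)) (by omega)
    have hs : 0 ≤ Real.sqrt (w u * w (σ u)) := Real.sqrt_nonneg _
    constructor
    · exact mul_nonneg (hw0 u).le (pow_nonneg (mul_nonneg hx hs) n)
    · refine mul_le_mul_of_nonneg_left ?_ (hw0 u).le
      rw [mul_pow]
      exact mul_le_mul_of_nonneg_right hpow (pow_nonneg hs n)
  calc ENNReal.ofReal (T / 2 * (T / Real.pi) ^ n) ≤ ENNReal.ofReal (∫ u in Ioc (-a) 0, f u) :=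
        ENNReal.ofReal_le_ofReal hkz
    _ = ∫⁻ u in Ioc (-a) 0, ENNReal.ofReal (f u) := by
        refine ofReal_integral_eq_lintegral_ofReal hint' ?_
        filter_upwards [ae_restrict_mem measurableSet_Ioc] with u hu
        exact (hpt u hu).1
    _ ≤ _ := by
        refine lintegral_mono_ae ?_
        filter_upwards [ae_restrict_mem measurableSet_Ioc] with u hu
        exact ENNReal.ofReal_le_ofReal (hpt u hu).2

theorem LEV (h1 : KZP_stmt) (h2 : KZW_stmt) (h3 : SIG_stmt) (h4 : NDG_stmt) (h5 : PAI_stmt)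
    (h6 : NRG_stmt) (h7 : HVA_stmt) : LEV_stmt := by
  intro n r0 r1 L 𝒢 H Φ hn hF hE A a k K w rb hAm ha hk hL hA hrb hw hw0 hwe hK
  obtain ⟨σ, hσ, hσ1⟩ := h3 a w ha hw hw0 hwe
  set T : ℝ := ∫ r in (-a)..a, w r with hT
  have hle : -a ≤ (0 : ℝ) := by linarith
  have hint : ∀ x y : ℝ, IntervalIntegrable w volume x y := fun x y => hw.intervalIntegrable x y
  have hhalf : ∫ r in (-a)..0, w r = ∫ r in (0 : ℝ)..a, w r := by
    have e1 := intervalIntegral.integral_comp_neg (a := (0 : ℝ)) (b := a) w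
    rw [neg_zero] at e1
    rw [← e1]
    exact intervalIntegral.integral_congr fun u _ => hwe u
  have hadd := intervalIntegral.integral_add_adjacent_intervals (hint (-a) 0) (hint 0 a)
  have hT2 : ∫ r in (-a)..0, w r = T / 2 := by
    rw [hT, ← hadd, ← hhalf]
    ring
  have hTp : 0 < T := by
    rw [hT]
    exact intervalIntegral.intervalIntegral_pos_of_pos (hint (-a) a) hw0 (by linarith)
  have hK0 : 0 ≤ K := by
    have := hK 0 ⟨by linarith, ha.le⟩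
    exact le_trans (mul_nonneg (pow_nonneg (Real.sqrt_nonneg _) n) (LEV_VV_nonneg 𝒢 _)) this
  have hAa : ∀ z ∈ A, nrm2 𝒢 z < 1 ∧ ∀ u ∈ Icc (-a) a, ‖(Φ u z).1‖ < r1 := fun z hz =>
    ⟨(hA z hz).1, fun u hu => (hA z hz).2 u ⟨by linarith [hu.1], hu.2⟩⟩
  -- Step 1
  have hstep1 : ENNReal.ofReal (T / 2 * (T / Real.pi) ^ n) * volume A ≤
      ∫⁻ z in A, ∫⁻ u in Ioc (-a) 0,
        ENNReal.ofReal (w u * (LEV_E H Φ z u (σ u) * Real.sqrt (w u * w (σ u)) ^ n)) := by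
    rw [← setLIntegral_const]
    refine setLIntegral_mono' hAm fun z hz => ?_
    exact LEV_point h1 h2 h4 h6 h7 hn hF hE ha hk hL (hA z hz).1 (hA z hz).2 hw hw0 hσ hσ1 hT hT2 hTp
  -- Step 2: Tonelli
  have hmeas : Measurable (fun q : PS n × ℝ =>
      ENNReal.ofReal (w q.2 * (LEV_E H Φ q.1 q.2 (σ q.2) * Real.sqrt (w q.2 * w (σ q.2)) ^ n))) := by
    refine ENNReal.measurable_ofReal.comp ?_
    have hw2 : Measurable (fun q : PS n × ℝ => w q.2) := (hw.comp continuous_snd).measurable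
    have hw3 : Measurable (fun q : PS n × ℝ => Real.sqrt (w q.2 * w (σ q.2)) ^ n) := by
      refine Continuous.measurable ?_
      fun_prop
    exact hw2.mul ((LEV_E_meas hF.toIsHFlow hσ).mul hw3)
  have hswap : ∫⁻ z in A, ∫⁻ u in Ioc (-a) 0,
        ENNReal.ofReal (w u * (LEV_E H Φ z u (σ u) * Real.sqrt (w u * w (σ u)) ^ n)) =
      ∫⁻ u in Ioc (-a) 0, ∫⁻ z in A,
        ENNReal.ofReal (w u * (LEV_E H Φ z u (σ u) * Real.sqrt (w u * w (σ u)) ^ n)) :=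
    lintegral_lintegral_swap hmeas.aemeasurable
  -- Step 3: PAI
  have hstep3 : ∫⁻ u in Ioc (-a) 0, ∫⁻ z in A,
        ENNReal.ofReal (w u * (LEV_E H Φ z u (σ u) * Real.sqrt (w u * w (σ u)) ^ n)) ≤
      ∫⁻ u in Ioc (-a) 0, ENNReal.ofReal (w u * K ^ 2) := by
    refine setLIntegral_mono' measurableSet_Ioc fun u hu => ?_
    have hu' : u ∈ Icc (-a) (0 : ℝ) := Ioc_subset_Icc_self hu
    obtain ⟨hs1, hs2, -⟩ := hσ1 u hu'
    have hua : u ∈ Icc (-a) a := ⟨hu'.1, by linarith [hu'.2]⟩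
    have hsa : σ u ∈ Icc (-a) a := ⟨by linarith [hs1.1], hs1.2⟩
    have hc0 : 0 ≤ w u * Real.sqrt (w u * w (σ u)) ^ n :=
      mul_nonneg (hw0 u).le (pow_nonneg (Real.sqrt_nonneg _) n)
    have hpai := h5 n r0 r1 L 𝒢 H Φ hn hF hE A a u (σ u) (rb u) (rb (σ u)) hAm hua.1 hs2 hsa.2
      (by linarith [hs1.2, hu'.1]) hAa (fun z hz => ⟨(hrb u hua).2 z hz, (hrb _ hsa).2 z hz⟩)
      (hrb u hua).1 (hrb _ hsa).1
    have hEeq : ∫⁻ z in A, ENNReal.ofReal (LEV_E H Φ z u (σ u)) =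
        ∫⁻ z in A, ENNReal.ofReal (|(BB Φ (σ u - u) (Φ u z)).det| /
          Real.sqrt ((𝒢.G (Φ u z).1).det * (𝒢.G (Φ (σ u) z).1).det)) := by
      refine setLIntegral_congr_fun hAm fun z hz => ?_
      have horb := LEV_orb h6 h7 hF ha hk (hA z hz).1 (hA z hz).2
      unfold LEV_E
      rw [(horb u ⟨by linarith [hua.1], hua.2⟩).2, (horb (σ u) ⟨by linarith [hsa.1], hsa.2⟩).2]
    calc ∫⁻ z in A, ENNReal.ofReal (w u * (LEV_E H Φ z u (σ u) * Real.sqrt (w u * w (σ u)) ^ n))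
        = ∫⁻ z in A, ENNReal.ofReal (w u * Real.sqrt (w u * w (σ u)) ^ n) *
            ENNReal.ofReal (LEV_E H Φ z u (σ u)) := by
          refine lintegral_congr fun z => ?_
          rw [← ENNReal.ofReal_mul hc0]
          congr 1
          ring
      _ = ENNReal.ofReal (w u * Real.sqrt (w u * w (σ u)) ^ n) *
            ∫⁻ z in A, ENNReal.ofReal (LEV_E H Φ z u (σ u)) :=
          lintegral_const_mul' _ _ ENNReal.ofReal_ne_top
      _ ≤ ENNReal.ofReal (w u * Real.sqrt (w u * w (σ u)) ^ n) *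
            ENNReal.ofReal (VV 𝒢 (rb u) * VV 𝒢 (rb (σ u))) := by
          rw [hEeq]
          gcongr
      _ = ENNReal.ofReal (w u * Real.sqrt (w u * w (σ u)) ^ n * (VV 𝒢 (rb u) * VV 𝒢 (rb (σ u)))) :=
          (ENNReal.ofReal_mul hc0).symm
      _ ≤ ENNReal.ofReal (w u * K ^ 2) := by
          refine ENNReal.ofReal_le_ofReal ?_
          rw [Real.sqrt_mul (hw0 u).le, mul_pow]
          have e1 := hK u hua
          have e2 := hK (σ u) hsa
          have e3 : 0 ≤ Real.sqrt (w (σ u)) ^ n * VV 𝒢 (rb (σ u)) :=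
            mul_nonneg (pow_nonneg (Real.sqrt_nonneg _) n) (LEV_VV_nonneg 𝒢 _)
          have e4 := mul_le_mul e1 e2 e3 hK0
          calc w u * (Real.sqrt (w u) ^ n * Real.sqrt (w (σ u)) ^ n) * (VV 𝒢 (rb u) * VV 𝒢 (rb (σ u)))
              = w u * ((Real.sqrt (w u) ^ n * VV 𝒢 (rb u)) *
                (Real.sqrt (w (σ u)) ^ n * VV 𝒢 (rb (σ u)))) := by ring
            _ ≤ w u * (K * K) := mul_le_mul_of_nonneg_left e4 (hw0 u).le
            _ = w u * K ^ 2 := by ring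
  have hlast : ∫⁻ u in Ioc (-a) 0, ENNReal.ofReal (w u * K ^ 2) = ENNReal.ofReal (T / 2 * K ^ 2) := by
    rw [← hT2, intervalIntegral.integral_of_le hle, ← integral_mul_const]
    refine (ofReal_integral_eq_lintegral_ofReal ?_ ?_).symm
    · exact (((intervalIntegrable_iff_integrableOn_Ioc_of_le hle).mp (hint (-a) 0)).integrable).mul_const _
    · exact Filter.Eventually.of_forall fun u => mul_nonneg (hw0 u).le (sq_nonneg K)
  have hall : ENNReal.ofReal (T / 2 * (T / Real.pi) ^ n) * volume A ≤ ENNReal.ofReal (T / 2 * K ^ 2) := by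
    refine hstep1.trans ?_
    rw [hswap]
    exact hstep3.trans hlast.le
  rw [ENNReal.ofReal_mul (by positivity), ENNReal.ofReal_mul (by positivity), mul_assoc] at hall
  exact (ENNReal.mul_le_mul_iff_right (ENNReal.ofReal_pos.mpr (by positivity)).ne' ENNReal.ofReal_ne_top).mp hall

end Pool.Agent.CRO
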